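import Mathlib
import Pool.Agent.R40.NineEighteen

/-!
# MP_3da5e8_co: `(n, e) → (9, 18)` only for `(n, e) = (9, 18)`

For all `n ≥ 9` and `0 ≤ e ≤ C(n,2)`: every graph with `n` vertices and `e` edges has nine
vertices spanning exactly 18 edges if and only if `n = 9` and `e = 18`.
-/

namespace Pool.Agent.Results.MP_3da5e8_co.OnlyTrivialPair

/-- The number of edges of `G` spanned by the vertex set `S`, that is, the number of edges of the
induced subgraph `G[S]`. -/
noncomputable def spanned {V : Type} (G : SimpleGraph V) (S : Finset V) : ℕ :=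
  (G.induce (S : Set V)).edgeSet.ncard

/-- The relation `(n, e) → (k, l)`: every graph with `n` vertices and `e` edges has a `k`-vertex
induced subgraph with exactly `l` or exactly `C(k,2) - l` edges. -/
def Arrows (n e k l : ℕ) : Prop :=
  ∀ G : SimpleGraph (Fin n), G.edgeSet.ncard = e →
    ∃ S : Finset (Fin n), S.card = k ∧ (spanned G S = l ∨ spanned G S = k.choose 2 - l)

open Pool.Agent.R40.NineEighteen

open Classical in
theorem d_eq {V : Type} (G : SimpleGraph V) (S : Finset V) :
    d G S = 2 * spanned G S := by
  unfold d spanned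
  have h1 := (G.induce (S : Set V)).sum_degrees_eq_twice_card_edges
  rw [← SimpleGraph.coe_edgeFinset, Set.ncard_coe_finset, ← h1]
  rw [← Finset.sum_coe_sort S (fun x => ∑ y ∈ S, if G.Adj x y then 1 else 0)]
  apply Finset.sum_congr rfl
  intro x _
  rw [← Finset.sum_coe_sort S (fun y => if G.Adj x y then 1 else 0)]
  rw [← SimpleGraph.card_neighborFinset_eq_degree, SimpleGraph.neighborFinset_eq_filter,
    Finset.card_filter]
  rfl

theorem spanned_univ {V : Type} [Fintype V] (G : SimpleGraph V) :
    spanned G Finset.univ = G.edgeSet.ncard := by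
  classical
  have h1 := d_eq G Finset.univ
  have h2 : d G Finset.univ = 2 * G.edgeSet.ncard := by
    rw [← SimpleGraph.coe_edgeFinset, Set.ncard_coe_finset, ← G.sum_degrees_eq_twice_card_edges]
    unfold d
    apply Finset.sum_congr rfl
    intro x _
    rw [← SimpleGraph.card_neighborFinset_eq_degree, SimpleGraph.neighborFinset_eq_filter,
      Finset.card_filter]
  omega

theorem d_comap {V W : Type} (f : W ≃ V) (G : SimpleGraph V) (S : Finset W) :
    d (G.comap f) S = d G (S.map f.toEmbedding) := by
  unfold d
  rw [Finset.sum_map]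
  apply Finset.sum_congr rfl
  intro x _
  rw [Finset.sum_map]
  rfl

theorem exists_graph {n e : ℕ} (h : OkG n e) :
    ∃ G : SimpleGraph (Fin n), G.edgeSet.ncard = e ∧
      ∀ S : Finset (Fin n), S.card = 9 → spanned G S ≠ 18 := by
  obtain ⟨V, _, G, h1, h2, h3⟩ := h
  let f : Fin n ≃ V := (Fintype.equivFinOfCardEq h1).symm
  refine ⟨G.comap f, ?_, ?_⟩
  · have h4 := d_eq (G.comap f) Finset.univ
    rw [spanned_univ, d_comap] at h4
    have h5 : (Finset.univ : Finset (Fin n)).map f.toEmbedding = Finset.univ := by
      ext x; simp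
    rw [h5, h2] at h4
    omega
  · intro S hS h
    have h4 := d_eq (G.comap f) S
    rw [d_comap, h] at h4
    exact h3 _ (by rw [Finset.card_map, hS]) h4

/-- **Main theorem.** For `n ≥ 9` and `0 ≤ e ≤ C(n,2)`, the relation `(n, e) → (9, 18)` holds if
and only if `n = 9` and `e = 18`. -/
theorem result (n e : ℕ) (hn : 9 ≤ n) (he : e ≤ n.choose 2) :
    Arrows n e 9 18 ↔ n = 9 ∧ e = 18 := by
  constructor
  · intro h
    rcases Nat.lt_or_ge n 10 with h9 | h10
    · obtain rfl : n = 9 := by omega
      refine ⟨rfl, ?_⟩
      -- some graph with `e` edges exists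
      obtain ⟨F, hF, hFe⟩ := Finset.exists_subset_card_eq
        (s := (⊤ : SimpleGraph (Fin 9)).edgeFinset) (n := e) (by
          rw [SimpleGraph.card_edgeFinset_top_eq_card_choose_two]; simpa using he)
      have hG : (SimpleGraph.fromEdgeSet (F : Set (Sym2 (Fin 9)))).edgeSet = (F : Set _) := by
        rw [SimpleGraph.edgeSet_fromEdgeSet]
        ext x
        constructor
        · exact fun hx => hx.1
        · intro hx
          refine ⟨hx, ?_⟩
          have := hF hx
          rw [SimpleGraph.mem_edgeFinset, SimpleGraph.edgeSet_top] at this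
          exact this
      have hcard : (SimpleGraph.fromEdgeSet (F : Set (Sym2 (Fin 9)))).edgeSet.ncard = e := by
        rw [hG, Set.ncard_coe_finset, hFe]
      obtain ⟨S, hS, hs⟩ := h _ hcard
      have hSu : S = Finset.univ := by
        rw [← Finset.card_eq_iff_eq_univ]; simpa using hS
      rw [hSu, spanned_univ, hcard] at hs
      have : (9 : ℕ).choose 2 = 36 := by decide
      omega
    · exfalso
      rw [Nat.choose_two_right] at he
      obtain ⟨G, hG, hS⟩ := exists_graph (ok_all (n := n) (e := e) h10 (by omega))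
      obtain ⟨S, hS9, hs⟩ := h G hG
      have : (9 : ℕ).choose 2 = 36 := by decide
      have := hS S hS9
      omega
  · rintro ⟨rfl, rfl⟩ G hG
    refine ⟨Finset.univ, by simp, Or.inl ?_⟩
    rw [spanned_univ, hG]

end Pool.Agent.Results.MP_3da5e8_co.OnlyTrivialPair
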